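import Pool.Agent.Run7.h316.UN.Ors
import Pool.Agent.Results.MP_ab3ecb_nt.MetricSequences

/-!
# Adelic points of twists of cyclic coverings by sums of primes are of the type of a rational point

Let `b y ^ 2 = ∏ k, G k (z, w)` be a hyperelliptic curve `D` over `ℚ`, where the `G k` are the homogenisations of
polynomials `g k` with integral coefficients, of even degrees, pairwise coprime. Let `h` be a polynomial with integral
coefficients, coprime to the `g k`, and `H` its homogenisation (`Admissible`). For an integer `a` and `m ≥ 2`,
`m ∣ deg h`, consider the curve

  `C a : b y ^ 2 = ∏ k, G k (z, w)`, `a x ^ m = H (z, w)`,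

a cyclic covering of `D`; for different `a` these coverings are twists of each other, for example the curves
`b y ^ 2 = ∏ g k (a x ^ m)`. The classes of the quaternion algebras `(G k, e)`, `e` a nonzero integer, belong to the
Brauer group of `C a`. An adelic point of `C a` is orthogonal if the sum of the local invariants of each of these classes
is zero. The type of a point over a field is the family of the values of the `G k` modulo squares.

`GoodTwist b g h a` (starting file `MetricSequences`): for all `m ≥ 2`, `m ∣ deg h`,

* every orthogonal adelic point of `C a` has at all places the type of a persistent class;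
* if all persistent classes are those of integral zeros of `h` (`OnlyZeros`; for example if the zeros of `h` are one or
  two integers), every orthogonal adelic point has at all places the type of the same rational point of `C a`, which lies
  over an integral zero of `h`. So the rational points are dense in the Brauer-Manin set as far as the types can see.

The starting files treat 100% of the squarefree integers (`TypesOfOrthogonalPoints`) and metric sequences
(`MetricSequences`). Here the twisting parameter is the value `a = λ(c)` of a linear form at the vectors of a family. Let
`c w`, `w ∈ Ω`, be a family of integral vectors and `S M ⊂ Ω` finite sets; `Usually`: for ALL linear forms `λ` (in the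
given set) and ALL admissible families `(b, g, h)` the proportion of the `w ∈ S M` for which `λ(c w)` has not the property
`GoodTwist` tends to zero, `M → ∞`.

**Theorem.** (A) For the linear forms `λ ≠ 0` the property `Usually` is spread-robust
(`Pool.Agent.Run7.h316.UN.SpreadRobust`): all spread families have it (the proportion of the vectors in a given class
modulo `q` is at most `C q ^ (-r) + o(1)` for all `q` prime to some number), metric sequences, random orbits of Zariski
dense groups, generalised polynomials.

(B) PRIMES. For the linear forms `λ` with at least two nonzero coefficients the property `Usually` is unit-robust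
(`Pool.Agent.Run7.h316.UN.UnitRobust`): it holds for the vectors of prime numbers `≤ M`, and for all families which are
spread over the vectors of units: the proportion of the vectors in a given class modulo `q` is at most
`C φ(q) ^ (-r) + o(1)`, and almost no vectors have a coordinate which is not prime to `q`, for all `q` prime to some
number. For example for almost all pairs of prime numbers `p`, `p'` up to `M` the twist by `a = p - p'` is good.

Two coefficients are necessary: a prime of a given Frobenius class never divides a single prime number `p` exactly once,
if `p` is not itself in this class.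

Proof. `GoodTwist` follows if a prime of each of finitely many Frobenius classes divides `a` exactly once (helper925,
helper676, helper18). The vectors of primes are not dominated by Haar measure: the local conditions are counted on the
vectors of units (`Pool.Agent.Run7.h316.UN.lin_count`), the set of the vectors which are not good is unit null
(`UnitNull`), and families which are spread over the vectors of units avoid unit null sets. Vectors of primes: the prime
number theorem for arithmetic progressions (helper923). Metric sequences: `Pool.Agent.N24.KM` (helpers 24, 344, 617, 199,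
764, 432, 286); random orbits: `Pool.Agent.N24.RW` (helpers 24, 123, 195, 300, 543, 765); generalised polynomials:
`Pool.Agent.N666.TM` (helper666); `Pool.Agent.N918.EQ` (helper918).
-/

set_option autoImplicit false

namespace Pool.Agent.Results.MP_ab3ecb_nt.PrimeTwists

open Polynomial
open Pool.Agent.Run7.h316.UN (SpreadRobust UnitRobust TwoNonzero robust_of_hits)
open Pool.Agent.Results.MP_ab3ecb_nt.TypesOfOrthogonalPoints (Admissible)
open Pool.Agent.Results.MP_ab3ecb_nt.MetricSequences (GoodTwist goodTwist_of)

/-- For all linear forms `λ` in `L` and all admissible families `(b, g, h)` the proportion of the `w` in `S M` for which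
`λ(c w)` has not the property `GoodTwist` tends to zero, `M → ∞`. -/
def Usually {ι : Type} [Fintype ι] (L : (ι → ℤ) → Prop) (Ω : Type) (S : ℕ → Finset Ω)
    (c : Ω → ι → ℤ) : Prop :=
  ∀ lam : ι → ℤ, L lam → ∀ (r : ℕ) (b : ℤ) (g : Fin r → ℤ[X]) (h : ℤ[X]), Admissible b g h →
    ∀ ε : ℝ, 0 < ε → ∃ M₀ : ℕ, ∀ M : ℕ, M₀ ≤ M →
      (({w : Ω | w ∈ S M ∧ ¬ GoodTwist b g h (∑ i, lam i * c w i)}.ncard : ℕ) : ℝ) ≤
        ε * (S M).card

/-- **The adelic points of twists of cyclic coverings by values of linear forms at vectors of primes, spread families,
metric sequences, random orbits and generalised polynomials.** -/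
theorem result (ι : Type) [Fintype ι] [DecidableEq ι] [Nonempty ι] :
    SpreadRobust (Usually (ι := ι) fun lam => lam ≠ 0) ∧
      UnitRobust (Usually (ι := ι) TwoNonzero) := by
  classical
  have hcp := Pool.Agent.N676.OR.countable_poly
  have key := robust_of_hits (ι := ι) (𝔇 := Σ r : ℕ, ℤ × (Fin r → ℤ[X]) × ℤ[X])
    (fun D a => Admissible D.2.1 D.2.2.1 D.2.2.2 → GoodTwist D.2.1 D.2.2.1 D.2.2.2 a) (by
    rintro ⟨r, b, g, h⟩
    by_cases hA : Admissible b g h
    · obtain ⟨PP, h1, h2, h3⟩ := goodTwist_of hA
      exact ⟨PP, h1, h2, fun a ha _ => h3 a ha⟩
    · exact ⟨∅, Set.finite_empty, fun P hP => absurd hP (Set.notMem_empty _),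
        fun a _ hA' => absurd hA' hA⟩)
  have hconv : ∀ (L : (ι → ℤ) → Prop) (Ω : Type) (S : ℕ → Finset Ω) (c : Ω → ι → ℤ),
      (∀ lam : ι → ℤ, L lam → ∀ D : Σ r : ℕ, ℤ × (Fin r → ℤ[X]) × ℤ[X],
        Pool.Agent.Run7.h316.EQ.Rare S c {x | ¬ (Admissible D.2.1 D.2.2.1 D.2.2.2 →
          GoodTwist D.2.1 D.2.2.1 D.2.2.2 (∑ i, lam i * x i))}) → Usually L Ω S c := by
    intro L Ω S c hR lam hlam r b g h hA ε hε
    obtain ⟨M₀, h1⟩ := hR lam hlam ⟨r, b, g, h⟩ ε hε
    refine ⟨M₀, fun M hM => le_trans ?_ (h1 M hM)⟩
    refine Nat.cast_le.2 (Set.ncard_le_ncard ?_ ((S M).finite_toSet.subset fun w hw => hw.1))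
    rintro w ⟨hw1, hw2⟩
    exact ⟨hw1, fun hgood => hw2 (hgood hA)⟩
  exact ⟨key.1.imp (hconv _), key.2.imp (hconv _)⟩

end Pool.Agent.Results.MP_ab3ecb_nt.PrimeTwists
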