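import Pool.Agent.Run7.h316.EQ.MW
import Pool.Agent.Run7.h316.EQ.Typ
import Pool.Agent.Run7.h316.EQ.Cnt
import Pool.Agent.N89.MI.Cov
import Pool.Agent.N89.MW.Jordan

/-!
# The Mordell-Weil sieve explains the absence of rational points on coverings with prime,
# equidistributed, metric or random coefficients

`K` is a number field, `G = E_1 × ⋯ × E_r × G_m^s`, where `E_i` is an elliptic curve
`y² = x³ + a_i x` or `y² = x³ + b_i`, `a_i, b_i ∈ ℤ` (`r + s` arbitrary, any rank). For `c ∈ (𝓞 K)^J` let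
`φ_c : G → ℙ^n` be the map with the coordinates `Φ_j + ∑_x c_(j,x) Λ_(j,x)`, `j = 0, …, n`, where `Φ_j`,
`Λ_(j,x)` are polynomials over `𝓞 K` in the homogeneous coordinates of the points of the `E_i` and in
the coordinates of the torus, of the same multidegree, and each linear system `(Λ_(j,x))_x` has no
base points on `G`.

Let `L` be a finite extension of `K` such that some archimedean place of `L` is real or lies over a
complex place of `K` (`Comp`). Let

  `h(T; X) = h_0(T) + h_1(T) X + ⋯ + h_e(T) X^e`,  `T = (T_0, …, T_n)`, `e ≥ 2`,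

be a polynomial over `𝓞 L`, the `h_i` homogeneous of the same degree in `T`, i.e. a covering
`Y → ℙ^n` over `L`, which is regular with the group `𝒢 ⊆ S_e`: its Galois group over `L(T)` is `𝒢`, and
on some complex line `y + x v` its Galois group over `ℂ(x)` is `𝒢`, too. `𝒢` is ANY transitive group of
permutations. Let `Y_c` be the pull-back `h(φ_c(P); X) = 0` of `Y` to `G`; for `r = 1`, `s = 0` it is a
curve, a covering of the elliptic curve `E_1` of degree `e`.

`Explained`: there is a number `Y` such that the Mordell-Weil sieve on `G` with the finitely many primes of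
`L` above the prime numbers `p ≤ Y` explains that `Y_c` has no `L`-rational points (over points with
`S`-units as torus coordinates): for EVERY `P ∈ G(L)` there is such a prime `w` for which `Y_c` has no point
over the residue field `k_w` above the reduction of `P`.

So for `Explained` `Y_c` the image of `Y_c(𝔸_L)` in `G(𝔸_L)` does not meet the closure of `G(L)`. Let
`s = 0` and suppose that the groups `Ш(E_i / L)` are finite (for example `L = K = ℚ`, `E_i` of analytic rank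
at most one). Then the Brauer set of `G` is the closure of `G(L)`, hence the Brauer set of a smooth
projective model of `Y_c` is empty; for curves `Y_c` this is Stoll's conjecture.

**Theorem.**

Let `c w`, `w ∈ Ω`, be a family of vectors of coefficients and `T M ⊂ Ω` finite sets; `Usually`: for ALL
`L = K(θ)`, ALL `S` and ALL coverings `h` (of all degrees `e ≥ 2`, with all transitive monodromy groups) over
`L` the proportion of the `w ∈ T M` for which `Explained` or `NoPoints` does not hold for `c w` tends to zero,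
`M → ∞`. The property `Usually` is robust (`Pool.Agent.Run7.h316.EQ.Robust`):

(1) All dominated families have it: there are `C`, `A`, `M` such that for all squarefree `q` prime to `M` at
most the proportion `C (q / φ(q)) ^ A q ^ (-N' [K:ℚ]) + o(1)` of the `c w`, `w ∈ T M`, is in a given class
modulo `q`. (All equidistributed sequences, along arbitrary sets of times, are dominated, and all their
subfamilies of positive lower density.)
(2) - (4) Metric sequences: `(⌊f_{i,l}(x_i)⌋)_i` for Koksma sequences `f_{i,0}, f_{i,1}, …`,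
`(⌊a_{i,l} x_i⌋)_i` for arbitrary sequences of different integers (or of real numbers with a gap) and
`(⌊ξ_i x_i ^ (k_l)⌋)_i`, for almost all `x` (which do not depend on `L`, `S` and `h`).
(5) Random orbits of groups of integral matrices of determinant one which generate `SL(ℤ/q)` for all `q`
prime to some number (all Zariski dense groups, possibly of infinite index).
(6) Generalised polynomials `(⌊∑_t a_{i,t} l ^ t⌋)_i` at the integers and at the primes `l` of `(M, 2M]`.
(7) PRIME COEFFICIENTS: for all `L`, `S` and `h` the proportion of the vectors `c` of prime numbers `≤ M` for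
which the sieve does not explain the absence of points tends to zero.

Proof. The Mordell-Weil sieve of the projects HG, HA, MW of helper89 (with the contributions listed there;
the theorem for boxes of coefficients is the starting file `Pool.Agent.N89.MW.finMW`): for a product `q` of
good primes `p` such that `2(p + 1)` and `p² - 1` divide `M` the points of `G` over `L` fall in at most
`M ^ R` classes, and each of them is compatible with at most the proportion
`(1 - δ) ^ (number of the p)` of the coefficient vectors modulo `q` if no Frobenius element at a place above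
one of the `p` is a given permutation `σ ∈ 𝒢` without fixed points (Jordan); the number of the `p` can be
much larger than `log M`. So for all `L`, `h` and `S` the exceptional set is strongly null
(`Pool.Agent.Run7.h316.EQ.MW.strongMW'`): for all `D`, `A` and `ε > 0` there is a squarefree number `q`
prime to `D` such that at most the proportion `ε (φ(q) / q) ^ A` of the classes modulo `q` contain elements
of it. Metric sequences: `Pool.Agent.N24.KM` (helpers 24, 344, 617, 199, 764, 432, 286); random orbits: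
`Pool.Agent.N24.RW` (helpers 24, 123, 195, 300, 543, 765); generalised polynomials: `Pool.Agent.N666.TM`
(helper666); `Pool.Agent.N918.EQ` (helper918); primes: the prime number theorem for arithmetic progressions
(helper923). The definitions and `explained_of`, `noPoints_of` below are those of the starting file
`Pool.Agent.Results.MP_ab3ecb_nt.SieveForCoverings` (helper89).
-/

set_option autoImplicit false

namespace Pool.Agent.Results.MP_ab3ecb_nt.RobustSieve

open Polynomial NumberField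
open Pool.Agent.Run7.h316.EQ (StrongNull Rare Robust)

/-- polynomials with coefficients in `O` in the homogeneous coordinates `V_(i,j)`, `i < r`, `j < 3`,
of points in `r` planes and the coordinates `u_l` of a torus of dimension `s` -/
abbrev Pol (O : Type) [CommRing O] (r s : ℕ) : Type := MvPolynomial ((Fin r × Fin 3) ⊕ Fin s) O

/-- homogeneous of degree `d i` in `V_i` -/
def Homog {O : Type} [CommRing O] {r s : ℕ} (F : Pol O r s) (d : Fin r → ℕ) : Prop :=
  ∀ μ ∈ F.support, ∀ i, ∑ j, μ (Sum.inl (i, j)) = d i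

/-- the value `F(V, u)`; the coefficients are mapped by `φ` -/
noncomputable def val {O k : Type} [CommRing O] [CommRing k] (φ : O →+* k) {r s : ℕ}
    (F : Pol O r s) (V : Fin r → Fin 3 → k) (u : Fin s → k) : k :=
  MvPolynomial.eval₂ φ (Sum.elim (fun ij => V ij.1 ij.2) u) F

/-- `(V, u)` represents a point of `E_1 × ⋯ × E_r × G_m^s`, `E_i : y² = x³ + a_i x + b_i` -/
def OnG {k : Type} [Field k] {r s : ℕ} (a b : Fin r → ℤ) (V : Fin r → Fin 3 → k) (u : Fin s → k) :
    Prop :=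
  (∀ i, V i ≠ 0 ∧ V i 1 ^ 2 * V i 2 = V i 0 ^ 3 + a i * V i 0 * V i 2 ^ 2 + b i * V i 2 ^ 3) ∧
    ∀ l, u l ≠ 0

/-- the embedding of `𝓞 K` in `ℂ` -/
noncomputable def emb {K : Type} [Field K] (σ : K →+* ℂ) : 𝓞 K →+* ℂ :=
  σ.comp (algebraMap (𝓞 K) K)

/-- the polynomial `∑ f_i X^i` has degree `e`, it has the `e` different roots `x_1, …, x_e` in the
algebraic closure of `K`, and its Galois group over `K`, as a group of permutations of the indices of
the roots, is `𝒢` -/
def GalIs {K : Type} [Field K] {e : ℕ} (f : Fin (e + 1) → K) (𝒢 : Subgroup (Equiv.Perm (Fin e))) :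
    Prop :=
  ∃ x : Fin e → AlgebraicClosure K, (f (Fin.last e) ≠ 0 ∧ Function.Injective x ∧
    (∑ i, C (f i) * X ^ (i : ℕ)).map (algebraMap K (AlgebraicClosure K)) =
      C (algebraMap K (AlgebraicClosure K) (f (Fin.last e))) * ∏ i, (X - C (x i))) ∧
    ∀ σ : Equiv.Perm (Fin e), σ ∈ 𝒢 ↔
      ∃ τ : AlgebraicClosure K ≃ₐ[K] AlgebraicClosure K, ∀ i, τ (x i) = x (σ i)

/-- `x` is an `S`-unit (for `x ≠ 0`): `S^n x` and `S^n x⁻¹` are algebraic integers for some `n` -/
def SUnit {L : Type} [Field L] (S : ℕ) (x : L) : Prop :=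
  ∃ n : ℕ, IsIntegral ℤ ((S : L) ^ n * x) ∧ IsIntegral ℤ ((S : L) ^ n * x⁻¹)

/-- the `j`-th coordinate of the point `φ_c(V, u)` over `A`, where `ψ` maps `𝓞 K` to `A`; the vector `c`
represents the coefficients `c_(j,x) = ∑_i c_((j,x),i) ω_i ∈ 𝓞 K` -/
noncomputable def coord {K A : Type} [Field K] [NumberField K] [Field A] (ψ : 𝓞 K →+* A) {N r s n : ℕ}
    (ω : Module.Basis (Fin N) ℤ (𝓞 K)) (Φ : Fin (n + 1) → Pol (𝓞 K) r s)
    {ι : Fin (n + 1) → Type} [∀ j, Fintype (ι j)] (Λ : (j : Fin (n + 1)) → ι j → Pol (𝓞 K) r s)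
    (c : (Σ j, ι j) × Fin N → ℤ) (V : Fin r → Fin 3 → A) (u : Fin s → A) (j : Fin (n + 1)) : A :=
  val ψ (Φ j) V u + ∑ x, ψ (∑ i, c (⟨j, x⟩, i) • ω i) * val ψ (Λ j x) V u

/-- `w` is a vector of homogeneous coordinates of the reduction modulo the kernel of `φ` of the point
of the plane with the homogeneous coordinates `v`: all linear forms over `𝓞 L` which vanish at `v`
vanish, modulo the kernel, at `w` -/
def Reduces {L k : Type} [Field L] [Field k] (φ : 𝓞 L →+* k) (v : Fin 3 → L) (w : Fin 3 → k) : Prop :=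
  w ≠ 0 ∧ ∀ α : Fin 3 → 𝓞 L, ∑ j, (α j : L) * v j = 0 → ∑ j, φ (α j) * w j = 0

/-- `y ≠ 0` is the reduction of `u` modulo the kernel of `φ` -/
def ReducesUnit {L k : Type} [Field L] [Field k] (φ : 𝓞 L →+* k) (u : L) (y : k) : Prop :=
  y ≠ 0 ∧ ∀ α β : 𝓞 L, (α : L) * u = β → φ α * y = φ β

/-- the covering `h(φ_c(P); X) = 0` of `G` has modulo the kernel of `φ : 𝓞 L → k` no `k`-rational point
over the point `(W, y)` of `G` over `k`: the leading coefficient of the polynomial is not zero (no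
point `X = ∞`), and it has no root in `k` -/
def EmptyFibre {K L k : Type} [Field K] [NumberField K] [Field L] [Algebra K L] [Field k]
    {N r s n e : ℕ} (ω : Module.Basis (Fin N) ℤ (𝓞 K))
    (h : Fin (e + 1) → MvPolynomial (Fin (n + 1)) (𝓞 L)) (Φ : Fin (n + 1) → Pol (𝓞 K) r s)
    {ι : Fin (n + 1) → Type} [∀ j, Fintype (ι j)] (Λ : (j : Fin (n + 1)) → ι j → Pol (𝓞 K) r s)
    (c : (Σ j, ι j) × Fin N → ℤ) (φ : 𝓞 L →+* k) (W : Fin r → Fin 3 → k) (y : Fin s → k) : Prop :=
  MvPolynomial.eval₂ φ (coord (φ.comp (algebraMap (𝓞 K) (𝓞 L))) ω Φ Λ c W y) (h (Fin.last e)) ≠ 0 ∧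
  ∀ x : k, ∑ i, MvPolynomial.eval₂ φ (coord (φ.comp (algebraMap (𝓞 K) (𝓞 L))) ω Φ Λ c W y) (h i) *
    x ^ (i : ℕ) ≠ 0

/-- the Mordell-Weil sieve with the primes of `L` above the prime numbers `p ≤ Y`, for some `Y`,
explains that the covering `h(φ_c(P); X) = 0` of `G` has no points over `L` (over points `P` with
`S`-units as torus coordinates): for every such point `P = (V, u)` of `G` there is a surjection `φ` of
`𝓞 L` to a field `k` with `p` or `p ^ 2` elements, `p ≤ Y`, such that the reduction `(W, y)` of `P` has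
no `k`-rational point of the covering above it -/
def Explained {K L : Type} [Field K] [NumberField K] [Field L] [Algebra K L]
    {N r s n e : ℕ} (ω : Module.Basis (Fin N) ℤ (𝓞 K)) (a b : Fin r → ℤ)
    (h : Fin (e + 1) → MvPolynomial (Fin (n + 1)) (𝓞 L)) (Φ : Fin (n + 1) → Pol (𝓞 K) r s)
    {ι : Fin (n + 1) → Type} [∀ j, Fintype (ι j)] (Λ : (j : Fin (n + 1)) → ι j → Pol (𝓞 K) r s)
    (S : ℕ) (c : (Σ j, ι j) × Fin N → ℤ) : Prop :=
  ∃ Y : ℕ, ∀ (V : Fin r → Fin 3 → L) (u : Fin s → L), OnG a b V u → (∀ l, SUnit S (u l)) →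
    ∃ (p : ℕ) (k : Type) (_ : Field k) (_ : Fintype k) (φ : 𝓞 L →+* k) (W : Fin r → Fin 3 → k)
      (y : Fin s → k), p.Prime ∧ p ≤ Y ∧ (Fintype.card k = p ∨ Fintype.card k = p ^ 2) ∧
      Function.Surjective φ ∧ (∀ i, Reduces φ (V i) (W i)) ∧ (∀ l, ReducesUnit φ (u l) (y l)) ∧
      OnG a b W y ∧ EmptyFibre ω h Φ Λ c φ W y

/-- the covering `h(φ_c(P); X) = 0` of `G` has no points over `L` above points `P` of `G` over `L` with
`S`-units as torus coordinates (neither finite ones nor points with `X = ∞`) -/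
def NoPoints {K L : Type} [Field K] [NumberField K] [Field L] [Algebra K L]
    {N r s n e : ℕ} (ω : Module.Basis (Fin N) ℤ (𝓞 K)) (a b : Fin r → ℤ)
    (h : Fin (e + 1) → MvPolynomial (Fin (n + 1)) (𝓞 L)) (Φ : Fin (n + 1) → Pol (𝓞 K) r s)
    {ι : Fin (n + 1) → Type} [∀ j, Fintype (ι j)] (Λ : (j : Fin (n + 1)) → ι j → Pol (𝓞 K) r s)
    (S : ℕ) (c : (Σ j, ι j) × Fin N → ℤ) : Prop :=
  ∀ (V : Fin r → Fin 3 → L) (u : Fin s → L), OnG a b V u → (∀ l, SUnit S (u l)) →
    EmptyFibre ω h Φ Λ c (algebraMap (𝓞 L) L) V u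

/-- `h` defines a covering of `ℙ^n` over `L` which is regular with the group `𝒢`: the `h_i` are
homogeneous of the same degree, the Galois group of `h` over `L(T)` is `𝒢`, and on some complex line
`y + x v` the Galois group of `h` over `ℂ(x)` is `𝒢`, too -/
def Regular {L : Type} [Field L] {n e : ℕ}
    (h : Fin (e + 1) → MvPolynomial (Fin (n + 1)) (𝓞 L)) (𝒢 : Subgroup (Equiv.Perm (Fin e))) : Prop :=
  (∃ D : ℕ, ∀ i, (h i).IsHomogeneous D) ∧
  GalIs (fun i => algebraMap (MvPolynomial (Fin (n + 1)) (𝓞 L))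
    (FractionRing (MvPolynomial (Fin (n + 1)) (𝓞 L))) (h i)) 𝒢 ∧
  ∃ (τ : L →+* ℂ) (y v : Fin (n + 1) → ℂ), GalIs (fun i =>
    MvPolynomial.eval₂ ((RatFunc.C : ℂ →+* RatFunc ℂ).comp (emb τ))
      (fun j => RatFunc.C (y j) + RatFunc.C (v j) * RatFunc.X) (h i)) 𝒢

/-- some archimedean place of `L` is real, or lies over a complex place of `K` -/
def Comp (K L : Type) [Field K] [Field L] [Algebra K L] : Prop :=
  ∃ s : L →+* ℂ, (∀ x : L, (s x).im = 0) ∨ ∃ x : K, (s (algebraMap K L x)).im ≠ 0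

/-- the permutation group `𝒢` is transitive -/
def Transitive {e : ℕ} (𝒢 : Subgroup (Equiv.Perm (Fin e))) : Prop := ∀ i j, ∃ σ ∈ 𝒢, σ i = j

/-- For all extensions `L = K(θ)` of `K` with `Comp`, all `S ≥ 1` and all coverings `h` over `L` of degree
`e ≥ 2` which are regular with a transitive group `𝒢` the proportion of the `w` in `T M` for which the
Mordell-Weil sieve does not explain that the covering `h(φ_c(P); X) = 0`, `c = c w`, has no points over
`L`, or it has points, tends to zero, `M → ∞`. -/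
def Usually {K : Type} [Field K] [NumberField K] {N r s n : ℕ}
    (ω : Module.Basis (Fin N) ℤ (𝓞 K)) (a b : Fin r → ℤ) (Φ : Fin (n + 1) → Pol (𝓞 K) r s)
    {ι : Fin (n + 1) → Type} [∀ i, Fintype (ι i)] (Λ : (i : Fin (n + 1)) → ι i → Pol (𝓞 K) r s)
    (Ω : Type) (T : ℕ → Finset Ω) (c : Ω → (Σ i, ι i) × Fin N → ℤ) : Prop :=
  ∀ θ : AlgebraicClosure K, Comp K (IntermediateField.adjoin K {θ}) → ∀ S : ℕ, 1 ≤ S →
    ∀ (e : ℕ) (h : Fin (e + 1) → MvPolynomial (Fin (n + 1)) (𝓞 (IntermediateField.adjoin K {θ})))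
      (𝒢 : Subgroup (Equiv.Perm (Fin e))), 2 ≤ e → Transitive 𝒢 → Regular h 𝒢 →
      ∀ ε : ℝ, 0 < ε → ∃ M₀ : ℕ, ∀ M : ℕ, M₀ ≤ M →
        (({w : Ω | w ∈ T M ∧ ¬ (Explained ω a b h Φ Λ S (c w) ∧
          NoPoints ω a b h Φ Λ S (c w))}.ncard : ℕ) : ℝ) ≤ ε * (T M).card

theorem explained_of {K L : Type} [Field K] [NumberField K] [Field L] [NumberField L] [Algebra K L]
    {N r s n e : ℕ} (ω : Module.Basis (Fin N) ℤ (𝓞 K)) (a b : Fin r → ℤ)
    (h : Fin (e + 1) → MvPolynomial (Fin (n + 1)) (𝓞 L)) (Φ : Fin (n + 1) → Pol (𝓞 K) r s)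
    {ι : Fin (n + 1) → Type} [∀ j, Fintype (ι j)] (Λ : (j : Fin (n + 1)) → ι j → Pol (𝓞 K) r s)
    (S : ℕ) (c : (Σ j, ι j) × Fin N → ℤ)
    (hc : Pool.Agent.N89.MW.Expl ω a b h (fun i => Pool.Agent.N89.HL.up (Φ i))
      (fun i x => Pool.Agent.N89.HL.up (Λ i x)) S c) : Explained ω a b h Φ Λ S c := by
  have hval : ∀ {k : Type} [Field k] (φ : 𝓞 K →+* k) (F : Pol (𝓞 K) r s) (V : Fin r → Fin 3 → k)
      (u : Fin s → k), val φ F V u =
        Pool.Agent.W659.SA.vl φ (Pool.Agent.N89.HL.up F) V u Fin.elim0 := fun φ F V u =>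
    (Pool.Agent.N89.HL.vl_up φ F V u Fin.elim0).symm
  obtain ⟨Y, hY⟩ := hc
  refine ⟨Y, fun V u hV hu => ?_⟩
  obtain ⟨p, k, hk1, hk2, φ, W, y, h1, h2, h3, h4, h5, h6, h7, h8⟩ :=
    hY V (fun l => Units.mk0 (u l) (hV.2 l)) hV.1 (fun l => by
      obtain ⟨n, hn1, hn2⟩ := hu l
      exact ⟨n, hn1, by simpa using hn2⟩)
  refine ⟨p, k, hk1, hk2, φ, W, y, h1, h2, h3, h4, h5, h6, ⟨h7, fun l => (h6 l).1⟩, ?_⟩
  have hco : coord (φ.comp (algebraMap (𝓞 K) (𝓞 L))) ω Φ Λ c W y =
      Pool.Agent.N89.HL.zc (φ.comp (algebraMap (𝓞 K) (𝓞 L)))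
        (fun i => Pool.Agent.N89.HL.up (Φ i)) (fun i x => Pool.Agent.N89.HL.up (Λ i x)) W y
        (Pool.Agent.N89.HL.vecJ ω c) := by
    funext j
    unfold coord
    simp only [hval]
    rfl
  unfold EmptyFibre
  rw [hco]
  exact h8

theorem noPoints_of {K L : Type} [Field K] [NumberField K] [Field L] [NumberField L] [Algebra K L]
    {N r s n e : ℕ} (ω : Module.Basis (Fin N) ℤ (𝓞 K)) (a b : Fin r → ℤ)
    (h : Fin (e + 1) → MvPolynomial (Fin (n + 1)) (𝓞 L)) (Φ : Fin (n + 1) → Pol (𝓞 K) r s)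
    {ι : Fin (n + 1) → Type} [∀ j, Fintype (ι j)] (Λ : (j : Fin (n + 1)) → ι j → Pol (𝓞 K) r s)
    (S : ℕ) (c : (Σ j, ι j) × Fin N → ℤ)
    (hc : c ∉ Pool.Agent.N89.MI.Cov.HasPoint (L := L) ω a b h Φ Λ S) : NoPoints ω a b h Φ Λ S c := by
  intro V u hV hu
  have hi : (algebraMap (𝓞 L) L).comp (algebraMap (𝓞 K) (𝓞 L)) =
      Pool.Agent.N89.MI.Cov.incl K L := by
    ext x
    rfl
  have hco : coord ((algebraMap (𝓞 L) L).comp (algebraMap (𝓞 K) (𝓞 L))) ω Φ Λ c V u =
      Pool.Agent.N89.MI.Cov.coord ω Φ Λ c V u := by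
    rw [hi]
    rfl
  unfold EmptyFibre
  rw [hco]
  by_contra hcon
  apply hc
  refine ⟨V, u, hV, hu, ?_⟩
  by_contra h3
  push Not at h3
  exact hcon h3

theorem result (K : Type) [Field K] [NumberField K] (N : ℕ) (ω : Module.Basis (Fin N) ℤ (𝓞 K))
    (r s n : ℕ) (a b : Fin r → ℤ) (hab : ∀ i, a i * b i = 0 ∧ (a i ≠ 0 ∨ b i ≠ 0)) (σ : K →+* ℂ)
    -- the maps `φ_c`
    (Φ : Fin (n + 1) → Pol (𝓞 K) r s) (ι : Fin (n + 1) → Type) [∀ j, Fintype (ι j)]
    [∀ j, DecidableEq (ι j)]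
    (Λ : (j : Fin (n + 1)) → ι j → Pol (𝓞 K) r s) (d : Fin r → ℕ)
    (hΦ : ∀ j, Homog (Φ j) d) (hΛ : ∀ j x, Homog (Λ j x) d)
    (hbp : ∀ j V u, OnG a b V u → ∃ x, val (emb σ) (Λ j x) V u ≠ 0) :
    Robust (Usually ω a b Φ Λ) := by
  classical
  have hval : ∀ {k : Type} [Field k] (φ : 𝓞 K →+* k) (F : Pol (𝓞 K) r s) (V : Fin r → Fin 3 → k)
      (u : Fin s → k), val φ F V u =
        Pool.Agent.W659.SA.vl φ (Pool.Agent.N89.HL.up F) V u Fin.elim0 := fun φ F V u =>
    (Pool.Agent.N89.HL.vl_up φ F V u Fin.elim0).symm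
  have hbp' : ∀ (i : Fin (n + 1)) (V : Fin r → Fin 3 → ℂ) (u : Fin s → ℂ),
      Pool.Agent.N89.GS.OnB a b V u → ∃ x, Pool.Agent.W659.SA.vl (Pool.Agent.W659.SA.toC σ)
        (Pool.Agent.N89.HL.up (Λ i x)) V u Fin.elim0 ≠ 0 := by
    intro i V u hV
    obtain ⟨x, hx⟩ := hbp i V u ⟨hV.1, hV.2⟩
    refine ⟨x, ?_⟩
    rw [hval] at hx
    exact hx
  -- the two exceptional sets
  have hA : ∀ (L : Type) [Field L] [NumberField L] [Algebra K L], Comp K L → ∀ S : ℕ, 1 ≤ S →
      ∀ (e : ℕ) (h : Fin (e + 1) → MvPolynomial (Fin (n + 1)) (𝓞 L))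
        (𝒢 : Subgroup (Equiv.Perm (Fin e))), 2 ≤ e → Transitive 𝒢 → Regular h 𝒢 →
          StrongNull {c | ¬ Explained ω a b h Φ Λ S c} := by
    intro L _ _ _ hcmp S hS e h 𝒢 he ht hreg
    obtain ⟨⟨D, hh⟩, h1, τ, y, v, h2⟩ := hreg
    obtain ⟨π, hπ, hπf⟩ := Pool.Agent.N89.MW.jordan he 𝒢 ht
    have hE1 := Pool.Agent.Run7.h316.EQ.MW.strongMW' K L hcmp N ω r s n e a b hab h 𝒢 h1
      τ y v h2 σ (fun i => Pool.Agent.N89.HL.up (Φ i)) ι (fun i x => Pool.Agent.N89.HL.up (Λ i x))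
      hbp' S hS π hπ hπf
    exact StrongNull.mono (fun c hc h3 => hc (explained_of ω a b h Φ Λ S c h3)) hE1
  have hB : ∀ (L : Type) [Field L] [NumberField L] [Algebra K L], Comp K L → ∀ S : ℕ, 1 ≤ S →
      ∀ (e : ℕ) (h : Fin (e + 1) → MvPolynomial (Fin (n + 1)) (𝓞 L))
        (𝒢 : Subgroup (Equiv.Perm (Fin e))), 2 ≤ e → Transitive 𝒢 → Regular h 𝒢 →
          StrongNull {c | ¬ NoPoints ω a b h Φ Λ S c} := by
    intro L _ _ _ hcmp S hS e h 𝒢 he ht hreg
    obtain ⟨⟨D, hh⟩, h1, τ, y, v, h2⟩ := hreg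
    have h3 := Pool.Agent.Run7.h316.EQ.HA.strongHA' K L hcmp N ω r s n e D a b hab h hh 𝒢 h1 τ y v
      h2 σ (fun i => Pool.Agent.N89.HL.up (Φ i)) ι (fun i x => Pool.Agent.N89.HL.up (Λ i x)) d
      (fun i => Pool.Agent.N89.HL.mhomog_up (hΦ i))
      (fun i x => Pool.Agent.N89.HL.mhomog_up (hΛ i x)) hbp' S hS
    refine StrongNull.mono ?_ h3
    intro c hc
    have h4 : c ∈ Pool.Agent.N89.MI.Cov.HasPoint (L := L) ω a b h Φ Λ S := by
      by_contra h5
      exact hc (noPoints_of ω a b h Φ Λ S c h5)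
    obtain ⟨V, u, hV, hu, hc4⟩ := Pool.Agent.N89.MI.Cov.hasPoint_sub ω a b h 𝒢 Φ Λ S he ht h4
    have hco : Pool.Agent.N89.MI.Cov.coord ω Φ Λ c V u =
        Pool.Agent.N89.HL.zc (Pool.Agent.N89.GS.toL K L)
          (fun i => Pool.Agent.N89.HL.up (Φ i)) (fun i x => Pool.Agent.N89.HL.up (Λ i x)) V u
          (Pool.Agent.N89.HL.vecJ ω c) := by
      funext j
      have h6 : ∀ (F : Pol (𝓞 K) r s), Pool.Agent.N89.MI.Cov.val
          (Pool.Agent.N89.MI.Cov.incl K L) F V u = Pool.Agent.W659.SA.vl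
          (Pool.Agent.N89.MI.Cov.incl K L) (Pool.Agent.N89.HL.up F) V u Fin.elim0 := fun F =>
        (Pool.Agent.N89.HL.vl_up _ F V u Fin.elim0).symm
      unfold Pool.Agent.N89.MI.Cov.coord
      simp only [h6]
      rfl
    refine ⟨V, fun l => Units.mk0 (u l) (hV.2 l), hV.1, fun l => ?_, ?_⟩
    · obtain ⟨m, hm1, hm2⟩ := hu l
      exact ⟨m, hm1, by simpa using hm2⟩
    · unfold Pool.Agent.N89.MI.Cov.spec at hc4
      rw [hco] at hc4
      exact hc4
  have hN : Nonempty (Fin N) := ω.index_nonempty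
  have hne : Nonempty ((Σ i, ι i) × Fin N) := by
    have hV : ∃ V : Fin r → Fin 3 → ℂ, ∀ i, V i ≠ 0 ∧
        V i 1 ^ 2 * V i 2 = V i 0 ^ 3 + a i * V i 0 * V i 2 ^ 2 + b i * V i 2 ^ 3 :=
      ⟨fun _ j => if j = 1 then 1 else 0, fun i => ⟨fun h0 => by
        have := congrFun h0 1
        simp at this, by simp⟩⟩
    obtain ⟨V, hV⟩ := hV
    obtain ⟨x, -⟩ := hbp 0 V (fun _ => 1) ⟨hV, fun _ => one_ne_zero⟩
    exact ⟨⟨⟨0, x⟩, Classical.arbitrary _⟩⟩
  have hfd : ∀ θ : AlgebraicClosure K, FiniteDimensional K (IntermediateField.adjoin K {θ}) :=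
    fun θ => IntermediateField.adjoin.finiteDimensional (Algebra.IsIntegral.isIntegral θ)
  have hnf : ∀ θ : AlgebraicClosure K, NumberField (IntermediateField.adjoin K {θ}) := fun θ =>
    haveI := hfd θ
    NumberField.of_module_finite K _
  have hcK : Countable (AlgebraicClosure K) := Pool.Agent.Run7.h316.EQ.Cnt.countable_cl K
  have hcO : ∀ θ : AlgebraicClosure K, Countable (MvPolynomial (Fin (n + 1))
      (𝓞 (IntermediateField.adjoin K {θ}))) := by
    intro θ
    haveI := hnf θ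
    have h1 : Countable (IntermediateField.adjoin K {θ}) :=
      Pool.Agent.Run7.h316.EQ.Cnt.countable_nf _
    have h2 : Countable (𝓞 (IntermediateField.adjoin K {θ})) :=
      Function.Injective.countable (f := fun x => (x : IntermediateField.adjoin K {θ}))
        (fun x y h => RingOfIntegers.ext h)
    exact Pool.Agent.Run7.h316.EQ.Cnt.countable_mv _ _
  refine Pool.Agent.Run7.h316.EQ.robust_countable
    (I := {i : Σ θ : AlgebraicClosure K, Σ e : ℕ, (Fin (e + 1) → MvPolynomial (Fin (n + 1))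
        (𝓞 (IntermediateField.adjoin K {θ}))) × Subgroup (Equiv.Perm (Fin e)) × ℕ × Bool //
      Comp K (IntermediateField.adjoin K {i.1}) ∧ 1 ≤ i.2.2.2.2.1 ∧ 2 ≤ i.2.1 ∧
        Transitive i.2.2.2.1 ∧ Regular i.2.2.1 i.2.2.2.1})
    (fun i => if i.1.2.2.2.2.2 = true then
        {c | ¬ Explained ω a b i.1.2.2.1 Φ Λ i.1.2.2.2.2.1 c} else
        {c | ¬ NoPoints ω a b i.1.2.2.1 Φ Λ i.1.2.2.2.2.1 c}) ?_ _ ?_
  · rintro ⟨⟨θ, e, h, 𝒢, S, z⟩, h1, h2, h3, h4, h5⟩
    haveI := hnf θ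
    cases z
    · exact hB _ h1 S h2 e h 𝒢 h3 h4 h5
    · exact hA _ h1 S h2 e h 𝒢 h3 h4 h5
  · intro Ω T c hR θ hcmp S hS e h 𝒢 he ht hreg ε hε
    obtain ⟨M₁, hM₁⟩ := hR ⟨⟨θ, e, h, 𝒢, S, true⟩, hcmp, hS, he, ht, hreg⟩ (ε / 2) (by positivity)
    obtain ⟨M₂, hM₂⟩ := hR ⟨⟨θ, e, h, 𝒢, S, false⟩, hcmp, hS, he, ht, hreg⟩ (ε / 2) (by positivity)
    refine ⟨max M₁ M₂, fun M hM => ?_⟩
    have e1 := hM₁ M ((le_max_left _ _).trans hM)
    have e2 := hM₂ M ((le_max_right _ _).trans hM)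
    simp only [if_true] at e1
    simp only [Bool.false_eq_true, if_false] at e2
    have hsub : {w : Ω | w ∈ T M ∧ ¬ (Explained ω a b h Φ Λ S (c w) ∧
        NoPoints ω a b h Φ Λ S (c w))} ⊆
        {w : Ω | w ∈ T M ∧ c w ∈ {c | ¬ Explained ω a b h Φ Λ S c}} ∪
        {w : Ω | w ∈ T M ∧ c w ∈ {c | ¬ NoPoints ω a b h Φ Λ S c}} := by
      rintro w ⟨hw1, hw2⟩
      by_cases h3 : Explained ω a b h Φ Λ S (c w)
      · exact Or.inr ⟨hw1, fun h4 => hw2 ⟨h3, h4⟩⟩
      · exact Or.inl ⟨hw1, h3⟩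
    have hfin : ∀ P : Ω → Prop, {w : Ω | w ∈ T M ∧ P w}.Finite := fun P =>
      (T M).finite_toSet.subset fun w hw => hw.1
    have h5 := Set.ncard_le_ncard hsub ((hfin _).union (hfin _))
    have h6 := h5.trans (Set.ncard_union_le _ _)
    have h7 : (({w : Ω | w ∈ T M ∧ ¬ (Explained ω a b h Φ Λ S (c w) ∧
        NoPoints ω a b h Φ Λ S (c w))}.ncard : ℕ) : ℝ) ≤
        (({w : Ω | w ∈ T M ∧ c w ∈ {c | ¬ Explained ω a b h Φ Λ S c}}.ncard : ℕ) : ℝ) +
        (({w : Ω | w ∈ T M ∧ c w ∈ {c | ¬ NoPoints ω a b h Φ Λ S c}}.ncard : ℕ) : ℝ) := by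
      exact_mod_cast h6
    linarith

end Pool.Agent.Results.MP_ab3ecb_nt.RobustSieve
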